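import Pool.Agent.L5helper90.DU.Up

/-!
# Branching algorithms for hypergraph dualization: a quasi-polynomial lower bound, and a polynomial
upper bound for the same pairs with memoization
-/

set_option autoImplicit false

namespace Pool.Agent.Results.MP_bca398_lc.BranchingLowerBound

open Pool.Agent.L5helper90.DU

theorem real_bound (k : ℕ) (N : ℝ) (h1 : 1 ≤ N) (h2 : N ≤ 2 ^ (2 ^ (k + 1))) :
    N ^ (Real.logb 2 N / 6) ≤ |(M k : ℝ)| := by
  have hN0 : 0 < N := by linarith
  set l := Real.logb 2 N with hl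
  have hl0 : 0 ≤ l := Real.logb_nonneg (by norm_num) h1
  have hl1 : l ≤ 2 ^ (k + 1) := by
    have : Real.logb 2 N ≤ Real.logb 2 ((2 : ℝ) ^ (2 ^ (k + 1) : ℕ)) :=
      Real.logb_le_logb_of_le (by norm_num) hN0 (by exact_mod_cast h2)
    rw [Real.logb_pow, Real.logb_self_eq_one (by norm_num)] at this
    push_cast at this
    linarith
  have hN : N = (2 : ℝ) ^ l := (Real.rpow_logb (by norm_num) (by norm_num) hN0).symm
  have h3 : (N ^ (l / 6)) ^ 3 ≤ |(M k : ℝ)| ^ 3 := by
    have e1 : (N ^ (l / 6)) ^ 3 = (2 : ℝ) ^ (l * l / 2) := by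
      rw [hN, ← Real.rpow_mul (by norm_num), ← Real.rpow_natCast, ← Real.rpow_mul (by norm_num)]
      congr 1
      push_cast
      ring
    rw [e1]
    have h4 : l * l / 2 ≤ ((2 * 4 ^ k + 1 : ℕ) : ℝ) := by
      have : l * l ≤ 2 ^ (k + 1) * 2 ^ (k + 1) := mul_le_mul hl1 hl1 hl0 (by positivity)
      have e : (2 : ℝ) ^ (k + 1) * 2 ^ (k + 1) = 4 * 4 ^ k := by
        rw [← mul_pow]; norm_num; ring
      push_cast
      rw [e] at this
      linarith
    have h5 : (2 : ℝ) ^ (l * l / 2) ≤ (2 : ℝ) ^ ((2 * 4 ^ k + 1 : ℕ) : ℝ) :=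
      Real.rpow_le_rpow_of_exponent_le (by norm_num) h4
    refine h5.trans ?_
    rw [Real.rpow_natCast]
    have := (M_sq k).2
    exact_mod_cast this
  exact le_of_pow_le_pow_left₀ (by norm_num) (abs_nonneg _) h3

/-- **Branching needs quasi-polynomial size on dual pairs with a polynomial size decision DAG.** -/
theorem result : ∀ k : ℕ, ∃ (V : Type) (_ : Fintype V) (_ : DecidableEq V)
    (F G : Finset (Finset V)) (N : ℕ), N = F.card + G.card ∧
    Fintype.card V = 2 * 4 ^ k ∧ F.card = 2 ^ (2 ^ (k + 1) - 2) ∧ G.card = 2 ^ (2 ^ (k + 1) - 1) ∧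
    (∀ e ∈ F, e.card = 2 ^ (k + 1)) ∧ (∀ g ∈ G, g.card = 2 ^ k) ∧
    Tr F = (G : Set (Finset V)) ∧ Tr G = (F : Set (Finset V)) ∧
    (∀ (ι : Type) (_ : Fintype ι) (c : ι → ℝ) (A B : ι → Finset V),
      (∀ T, (∑ i, if A i ⊆ T ∧ T ⊆ B i then c i else 0) = (open Classical in
        if IsTransversal F T then 1 else 0)) → (N : ℝ) ^ (Real.logb 2 N / 6) ≤ ∑ i, |c i|) ∧
    (∀ (L : Type) (S : Set L) (t : Tree V L), (∀ T, t.run T ∈ S ↔ IsTransversal F T) →
      (N : ℝ) ^ (Real.logb 2 N / 6) ≤ t.leaves) ∧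
    (∀ t : Tree V (Finset V ⊕ Finset V), Certifies F G t →
      (N : ℝ) ^ (Real.logb 2 N / 6) ≤ t.leaves) ∧
    ∃ t : Tree V (Finset V ⊕ Finset V), Certifies F G t ∧ t.subtrees.encard ≤ N ^ 2 := by
  intro k
  have hk : 2 ≤ 2 ^ (k + 1) := by
    rw [pow_succ]; have := Nat.one_le_two_pow (n := k); omega
  have e1 : (HG k).card = 2 * (HE k).card := by
    rw [card_HG, card_HE, ← pow_succ']
    congr 1
    omega
  have e3 : 1 ≤ (HE k).card := by rw [card_HE]; exact Nat.one_le_two_pow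
  have hN1 : (1 : ℝ) ≤ (((HE k).card + (HG k).card : ℕ) : ℝ) := by
    exact_mod_cast (show 1 ≤ (HE k).card + (HG k).card by omega)
  have hN2 : (((HE k).card + (HG k).card : ℕ) : ℝ) ≤ 2 ^ (2 ^ (k + 1)) := by
    have : (HE k).card + (HG k).card ≤ 2 ^ (2 ^ (k + 1)) := by
      have e4 : (2 : ℕ) ^ (2 ^ (k + 1)) = 4 * (HE k).card := by
        rw [card_HE, show (4 : ℕ) = 2 ^ 2 by norm_num, ← pow_add]
        congr 1
        omega
      omega
    exact_mod_cast this
  have hb := real_bound k _ hN1 hN2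
  have htree : ∀ (L : Type) (S : Set L) (t : Tree (Vk k) L),
      (∀ T, t.run T ∈ S ↔ IsTransversal (HE k) T) →
      (((HE k).card + (HG k).card : ℕ) : ℝ) ^
        (Real.logb 2 (((HE k).card + (HG k).card : ℕ) : ℝ) / 6) ≤ t.leaves := by
    intro L S t h
    have h1 := tree_bound S t (fun x => by
      rw [h, isTransversal_iff, pt_st])
    refine hb.trans ?_
    exact_mod_cast h1
  refine ⟨Vk k, inferInstance, inferInstance, HE k, HG k, _, rfl, card_Vk k, card_HE k, card_HG k,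
    fun e he => card_of_mem_HE he, fun g hg => card_of_mem_HG hg, Tr_HE k, Tr_HG k, ?_, htree, ?_,
    ?_⟩
  · intro ι _ c A B h
    refine hb.trans (interval_bound c A B fun x => ?_)
    have h1 := h (st x)
    have h2 : IsTransversal (HE k) (st x) ↔ f k x = true := by
      rw [isTransversal_iff, pt_st]
    simp only [h2] at h1
    rw [← h1]
    refine Finset.sum_congr rfl fun i _ => ?_
    split_ifs <;> simp
  · intro t ht
    refine htree _ {l | ∃ g, l = Sum.inr g} t fun T => ?_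
    rcases ht T with ⟨e, he, h1, h2⟩ | ⟨g, hg, h1, h2⟩
    · rw [h1]
      have h3 : ¬ IsTransversal (HE k) T := not_isTransversal_iff.2 ⟨e, he, h2⟩
      constructor
      · rintro ⟨g, hg⟩
        exact absurd hg (by simp)
      · exact fun h => absurd h h3
    · rw [h1]
      have h3 : IsTransversal (HE k) T := (isTransversal_iff' T).2 ⟨g, hg, h2⟩
      exact ⟨fun _ => h3, fun _ => ⟨g, rfl⟩⟩
  · refine ⟨PT k, certifies_PT k, ?_⟩
    obtain ⟨S, hS, hc⟩ := subtrees_PT k
    refine (Set.encard_le_encard hS).trans ?_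
    rw [Set.encard_coe_eq_coe_finsetCard]
    have : S.card ≤ ((HE k).card + (HG k).card) ^ 2 := by
      refine hc.trans ?_
      rw [e1]
      nlinarith
    exact_mod_cast this

end Pool.Agent.Results.MP_bca398_lc.BranchingLowerBound
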