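import Pool.Agent.L5helper60.DN.BP

/-!
# Hypergraph dualization by read-once branching programs and decomposable circuits is not
# output-polynomial

We construct hypergraphs `H` such that every read-once branching program (free binary decision
diagram), every deterministic decomposable circuit (d-DNNF; this class contains the decision DNNFs
produced by branching algorithms with memoization and component decomposition) and, more generally,
every decomposable circuit with nonnegative weights (sum-product network) for the function which says
whether a set of vertices meets all edges of `H`, or for its complement, has size at least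
`(N ^ (c log₂ N) - 1) / 10`, where `N` is the number of edges plus the number of minimal
transversals. So a monotone Boolean function with few prime implicants and few prime implicates can
need superpolynomial read-once branching programs (the question whether dnf(f) + dnf(not f) bounds
the read-once branching program size polynomially was asked by Jukna, Razborov, Savicky and Wegener
in 1999, who settled it for decision trees). No variable order and no tree structure of the circuits is assumed. The
input gates of the circuits may compute arbitrary functions of `4 ^ j` vertices, a constant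
proportion of all vertices. The exponent is optimal up to the constant `c`, since the function has a
decision tree with `N ^ O(log N)` leaves.

* `Circ V t`: a sequence of gates; `vars i` is the set of the vertices below gate `i`, `val i S` is its
  value for the vertex set `S`. Each gate is an arbitrary nonnegative function of at most `t` vertices,
  or the sum of two earlier gates, or the product of two earlier gates with disjoint sets `vars`.
* `BCirc V t`: the same with propositions: arbitrary predicates of at most `t` vertices,
  disjunctions of two earlier gates which are never both true, and conjunctions of two earlier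
  gates with disjoint sets `vars`.
* `BProg V`: a sequence of nodes; a node is a sink with a truth value, or it has a vertex `v` and two
  earlier nodes, the successors for `v ∈ S` and for `v ∉ S`. `P.Accepts S o`: the computation on `S`
  from the node `o` ends at a true sink. `P.Tests v i`: some path from the node `i` has a node with
  the vertex `v`. `P.ReadOnce`: no successor of a node with the vertex `v` tests `v`.
* `IsTransversal H S`: the set `S` meets all edges of `H`; `Tr H`: the set of the minimal such `S`.
* `ind p`: `1` if `p` is true, otherwise `0`.

Construction: the balanced alternating tree with `4 ^ j` leaves; a unary multiplexer at each leaf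
chooses one of a constant number of tuples of data vertices, and the chosen tuple is read by a
monotone gadget which computes the parity of `w + ∑ a_l b_l` for bits encoded by pairs of vertices.
The highest Fourier coefficient of the tree is `± 2 ^ (- number of leaves)`. A circuit gives a
decomposition into rectangles for different balanced partitions of the data vertices; for a random
choice of the tuples each of them has a much smaller correlation with the sign of the gadgets
(Lindsey's lemma), since many products `a_l b_l` are split by the partition.
-/

set_option autoImplicit false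

namespace Pool.Agent.Results.MP_bca398_lc.DecomposableCircuits

open Pool.Agent.L5helper18.DD Pool.Agent.L5helper60.DN

theorem num (K j N : ℕ) (hK : 1 ≤ K) (h : N ≤ 2 ^ (K * 2 ^ j)) :
    (N : ℝ) ^ (1 / (K : ℝ) ^ 2 * Real.logb 2 N) ≤ (2 : ℝ) ^ 4 ^ j := by
  have hK0 : (0 : ℝ) < K := by exact_mod_cast hK
  have e4 : (2 : ℝ) ^ 4 ^ j = (2 : ℝ) ^ ((4 : ℝ) ^ j) := by
    have := Real.rpow_natCast (2 : ℝ) (4 ^ j)
    rw [← this]
    push_cast
    rfl
  rcases Nat.eq_zero_or_pos N with h0 | h0
  · subst h0
    simp only [Nat.cast_zero, Real.logb_zero, mul_zero, Real.rpow_zero]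
    exact one_le_pow₀ (by norm_num)
  · have hN0 : (0 : ℝ) < N := by exact_mod_cast h0
    have hN1 : (1 : ℝ) ≤ N := by exact_mod_cast h0
    set l := Real.logb 2 N with hl
    have hl0 : 0 ≤ l := Real.logb_nonneg (by norm_num) hN1
    have hl1 : l ≤ K * 2 ^ j := by
      have h1 : (N : ℝ) ≤ (2 : ℝ) ^ (K * 2 ^ j : ℕ) := by exact_mod_cast h
      have h2 := Real.logb_le_logb_of_le (b := 2) (by norm_num) hN0 h1
      rw [Real.logb_pow, Real.logb_self_eq_one (by norm_num)] at h2
      push_cast at h2
      linarith
    have hN : (N : ℝ) = (2 : ℝ) ^ l := (Real.rpow_logb (by norm_num) (by norm_num) hN0).symm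
    rw [hN, ← Real.rpow_mul (by norm_num), e4]
    refine Real.rpow_le_rpow_of_exponent_le (by norm_num) ?_
    have h5 : l * l ≤ (K * 2 ^ j) * (K * 2 ^ j) := mul_le_mul hl1 hl1 hl0 (by positivity)
    have h6 : (4 : ℝ) ^ j = 2 ^ j * 2 ^ j := by rw [← mul_pow]; norm_num
    rw [h6, show l * (1 / (K : ℝ) ^ 2 * l) = (l * l) / (K : ℝ) ^ 2 by ring,
      div_le_iff₀ (by positivity)]
    nlinarith

/-- **Superpolynomial lower bounds for decomposable circuits and for read-once branching programs, for
hypergraphs with few edges and few minimal transversals.** -/
theorem result : ∃ (c : ℝ) (K : ℕ), 0 < c ∧ ∀ j : ℕ, ∃ (V : Type) (_ : Fintype V)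
    (_ : DecidableEq V) (H : Finset (Finset V)) (N : ℕ), N = H.card + (Tr H).ncard ∧
    Fintype.card V ≤ K * 4 ^ j ∧ N ≤ 2 ^ (K * 2 ^ j) ∧
    (N : ℝ) ^ (c * Real.logb 2 N) ≤ 2 ^ 4 ^ j ∧
    (∀ (C : Circ V (4 ^ j)) (o : Fin C.size), (∀ S, C.val o S = ind (IsTransversal H S)) ∨
      (∀ S, C.val o S = ind (¬ IsTransversal H S)) → 2 ^ 4 ^ j ≤ 2 * C.size + 1) ∧
    (∀ (C : BCirc V (4 ^ j)) (o : Fin C.size), (∀ S, C.val o S ↔ IsTransversal H S) ∨
      (∀ S, C.val o S ↔ ¬ IsTransversal H S) → 2 ^ 4 ^ j ≤ 2 * C.size + 1) ∧
    (∀ (P : BProg V) (o : Fin P.size), P.ReadOnce → (∀ S, P.Accepts S o ↔ IsTransversal H S) ∨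
      (∀ S, P.Accepts S o ↔ ¬ IsTransversal H S) → 2 ^ 4 ^ j ≤ 10 * P.size + 1) := by
  obtain ⟨K, hK1, h⟩ := exists_hyper
  have hK0 : (0 : ℝ) < K := by exact_mod_cast hK1
  refine ⟨1 / (K : ℝ) ^ 2, K, by positivity, fun j => ?_⟩
  obtain ⟨V, i1, i2, H, h1, h2, h3⟩ := h j
  refine ⟨V, i1, i2, H, _, rfl, h1, h2, num K j _ hK1 h2, h3,
    fun C o hC => h3 C.toCirc o (hC.imp (fun h S => ind_congr (h S)) fun h S => ind_congr (h S)),
    fun P o hP hC => ?_⟩
  have ht : 1 ≤ 4 ^ j := Nat.one_le_pow _ _ (by norm_num)
  have h4 := h3 (P.toCirc hP ht) (finProdFinEquiv (o, 4))
    (hC.imp (fun h S => (P.toCirc_val hP ht o S).trans (ind_congr (h S)))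
      fun h S => (P.toCirc_val hP ht o S).trans (ind_congr (h S)))
  rw [P.toCirc_size hP ht] at h4
  omega

end Pool.Agent.Results.MP_bca398_lc.DecomposableCircuits
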