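import Pool.Agent.L5helper18.DD.Obdd

/-!
# Dualization with ordered decision diagrams is not output-polynomial, for any vertex order

A well known practical method for the minimal transversals of a hypergraph `H` (Knuth, Toda) builds
an ordered binary decision diagram (OBDD) of the function which says whether `S` meets all edges of `H`, and reads the
minimal transversals off it. We construct hypergraphs with `4 M` vertices, `O(M ^ 2)` edges and
`O(M ^ 3)` minimal transversals such that for every order of the vertices every such diagram has at
least `2 ^ (M / 4)` nodes; this is exponential in `N ^ (1 / 3)`, where `N` is the size of the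
input plus the output.

`Diagram`: a device with a set `Q` of states which reads the vertices one after the other, in the
order of the list `l`; `step i q b` is the state after the `i`-th vertex if the state before was `q`
and if `b` says whether this vertex is in the set `S`; `Decides`: the final state tells if `f S`
holds. An OBDD with node set `Q` for the order `l` is such a diagram: the state is the current node,
and vertices that the current node does not ask for are skipped.

Construction: for a shift `r` let `g r` be the unary multiplexer with the address vertices `(p, 0)`
and the data vertices `(p + r, 1)`, or with these roles exchanged: it is true if two address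
vertices are present, or one, and its data vertex. A further unary multiplexer selects one of these
`2 M` functions. When an order has read half of the `2 M` vertices `(p, b)`, for some shift `r` at
least `M / 4` of the data vertices have been read and their address vertices have not.
-/

set_option autoImplicit false

namespace Pool.Agent.Results.MP_bca398_lc.DiagramsEveryOrder

open Pool.Agent.L5helper18.DD

/-- **Exponential lower bound for ordered decision diagrams of a hypergraph with few edges and few
minimal transversals, for every vertex order.** -/
theorem result : ∀ M : ℕ, 1 ≤ M → ∃ (V : Type) (_ : Fintype V) (_ : DecidableEq V)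
    (H : Finset (Finset V)), Fintype.card V = 4 * M ∧ H.card ≤ 2 * M ^ 2 + 2 * M + 1 ∧
    (Tr H).encard ≤ (2 * M ^ 3 + 6 * M ^ 2 : ℕ) ∧
    ∀ (Q : Type) (_ : Fintype Q) (D : Diagram Q) (l : List V), l.Nodup → (∀ v, v ∈ l) →
      D.Decides l (fun S => IsTransversal H S) →
      (2 : ℝ) ^ ((M : ℝ) / 4) ≤ Fintype.card Q := by
  intro M hM
  have : NeZero M := ⟨by omega⟩
  obtain ⟨H, h1, h2, h3⟩ := (FA_rep M).hyper
  refine ⟨Vx M, inferInstance, inferInstance, H, ?_, h1.trans (le_of_eq (by ring)),
    h2.trans (le_of_eq ?_), ?_⟩
  · rw [Fintype.card_sum, Fintype.card_prod, ZMod.card, Fintype.card_bool]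
    ring
  · congr 1
    ring
  · intro Q _ D l hnd hl hD
    have hb := FA_bound M D l hnd hl fun S => (h3 S).trans (hD S)
    have h4 : (2 : ℝ) ^ ((M : ℝ) / 4 * 4) ≤ (Fintype.card Q : ℝ) ^ 4 := by
      rw [div_mul_cancel₀ _ (by norm_num : (4 : ℝ) ≠ 0), Real.rpow_natCast]
      exact_mod_cast hb
    have h5 : ((2 : ℝ) ^ ((M : ℝ) / 4)) ^ 4 ≤ (Fintype.card Q : ℝ) ^ 4 := by
      rw [← Real.rpow_natCast, ← Real.rpow_mul (by norm_num)]
      exact_mod_cast h4
    exact le_of_pow_le_pow_left₀ (by norm_num) (by positivity) h5

end Pool.Agent.Results.MP_bca398_lc.DiagramsEveryOrder
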