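import Pool.Agent.L5helper60.KC.Hyp

/-!
# Hypergraph dualization by unambiguous read-`k`-times circuits or branching programs is not
# output-polynomial, for every `k` up to the logarithm of the number of vertices

For every `k ≥ 1` we construct hypergraphs `H` with few edges and few minimal transversals such that
neither the indicator function of the transversals of `H` nor that of the other sets, nor a positive
multiple of these functions, is computed

* by a small circuit with sums and products whose leaves are arbitrary nonnegative functions of at
  most `4 ^ j` vertices each (`n / C ^ k` for the number `n` of the vertices) and whose parse trees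
  contain each vertex in at most `k` leaves, or
* by a small nondeterministic branching program with nonnegative weights which tests each vertex at
  most `k` times on every path.

The sizes are at least `N ^ (log₂ N / C ^ k)` up to constant factors, where `N` is the number of edges
plus the number of minimal transversals and `C` is an absolute constant, and at least `2 ^ (n / C ^ k)`;
this is superpolynomial in `N` also if `k` grows like a small multiple of `log n`. The circuits of the
first kind with `k = 1` are the decomposable ones (the inputs of a product have disjoint sets of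
vertices), with 0-1-values they are the deterministic decomposable circuits (d-DNNF); for `k > 1` a
vertex can occur in both inputs of a product, and there are arbitrary sharing, no order, and no
restriction on the depth. With weights 0 and 1 the programs are unambiguous nondeterministic
read-`k`-times programs; the deterministic ones are among them. So a monotone Boolean function with few
prime implicants and few prime implicates (hence the function and its complement have small ambiguous
read-once programs and circuits) can need superpolynomial unambiguous read-`k`-times circuits.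

* `SCirc V q`: a circuit has `size` gates; a gate is a leaf with a set `A` of at most `q` vertices and a
  nonnegative function of the sets of vertices which depends only on their intersection with `A`, or it
  is the sum or the product of two gates with smaller numbers. `P.val S i`: the value of the gate `i` for
  the set `S`. `P.cnt v i`: the largest number of the leaves with `v ∈ A` in a parse tree of the gate
  `i`: for a leaf 1 if `v ∈ A` and 0 otherwise, for a sum the maximum, for a product the sum of the
  numbers of the two inputs.
* `WProg V`: a program has `size` nodes; `stop i` is the weight for stopping at the node `i`; `arc i l j`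
  is the weight of the arc from `i` to `j` with the label `l` (weight `0`: no arc); the label `none` is a
  free (guessing) move, `some (v, true)` is the test `v ∈ S`, `some (v, false)` the test `v ∉ S`. All
  weights are nonnegative, and arcs lead to nodes with smaller numbers.
* `ok S l`: `1` if the label `l` is satisfied by `S`, otherwise `0`. `step P S i j`: the total weight of
  the arcs from `i` to `j` with satisfied labels. `sol P S g`: the solution of the recursion
  `x i = g i + ∑ j < i, step i j * x j`. `P.val S o = sol P S P.stop o`: the total weight of the
  computations on `S` from the node `o`, a computation being a path with satisfied labels together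
  with stopping at its end; its weight is the product of the weights.
* `WPath P o l`: the vertices tested along some path from the node `o` are those of the list `l` (the
  path need not be a computation for a set `S`, and it may end at any node).
* `WReadTimes P k o`: on every path from `o` each vertex is tested at most `k` times.
* `Arc P`: the arcs of nonzero weight.
* `IsTransversal H S`: the set `S` meets all edges of `H`; `Tr H`: the set of the minimal such `S`.
* `ind p`: `1` if `p` is true, otherwise `0`.

Proof for circuits: the sum over the data vertices of the numbers `cnt v` is a potential of the gates.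
Every parse tree is cut along the path which always goes to the input with the larger potential: at
the place where the potential has dropped by `θ`, the tree splits into the part above (which sees at
most `θ` data vertices) and one or two trees below, and these are cut again. So the value is a sum of
at most `(3 s) ^ (16 k (k + 1))` products of nonnegative functions, each of which depends on few data
vertices, and each data vertex occurs in at most `k` factors. A random colouring of the factors
makes each term a product of a function which does not see a set `A` and a function which does not see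
a set `B`, for disjoint sets of at least a fraction `4 ^ (-k) / 8` of the data vertices. The function is a
balanced alternating tree of gadgets which compute parities of sums of products of bits encoded by
pairs of data vertices, and at each leaf unary selectors choose one of several tuples of data vertices.
For a random choice of the tuples each of the products has an exponentially smaller correlation with
the product of the signs of the gadgets than the function itself. This is joint work of two authors
(the folders `L5helper60` and `L5helper87`).
-/

set_option autoImplicit false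

namespace Pool.Agent.Results.MP_bca398_lc.ReadKCircuits

open Pool.Agent.L5helper18.DD Pool.Agent.L5helper60.DN Pool.Agent.L5helper87.RK
open Pool.Agent.L5helper60.KC (SCirc exists_hyper)

/-- the bound for the size -/
theorem root (M D j N x r : ℕ) (h : N ≤ 2 ^ (M * 2 ^ j)) (hs : 2 ^ 4 ^ j ≤ x ^ r)
    (hr : r ≠ 0) (hD : M ^ 2 * r ≤ D) (hD0 : 0 < D) :
    (N : ℝ) ^ (Real.logb 2 N / D) ≤ x := by
  have hx0 : 1 ≤ x := by
    rcases Nat.eq_zero_or_pos x with h0 | h0
    · rw [h0, zero_pow hr] at hs
      have : 0 < 2 ^ 4 ^ j := by positivity
      omega
    · exact h0
  have hx1 : (1 : ℝ) ≤ x := by exact_mod_cast hx0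
  rcases Nat.eq_zero_or_pos N with h0 | h0
  · subst h0
    simp only [Nat.cast_zero, Real.logb_zero, zero_div, Real.rpow_zero]
    exact hx1
  · have hN0 : (0 : ℝ) < N := by exact_mod_cast h0
    have hN1 : (1 : ℝ) ≤ N := by exact_mod_cast h0
    have hD' : (0 : ℝ) < D := by exact_mod_cast hD0
    set l := Real.logb 2 N with hl
    have hl0 : 0 ≤ l := Real.logb_nonneg (by norm_num) hN1
    have hl1 : l ≤ M * 2 ^ j := by
      have h1 : (N : ℝ) ≤ (2 : ℝ) ^ (M * 2 ^ j : ℕ) := by exact_mod_cast h
      have h2 := Real.logb_le_logb_of_le (b := 2) (by norm_num) hN0 h1
      rw [Real.logb_pow, Real.logb_self_eq_one (by norm_num)] at h2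
      push_cast at h2
      linarith
    have hN : (N : ℝ) = (2 : ℝ) ^ l := (Real.rpow_logb (by norm_num) (by norm_num) hN0).symm
    have e4 : (2 : ℝ) ^ 4 ^ j = (2 : ℝ) ^ ((4 : ℝ) ^ j) := by
      have := Real.rpow_natCast (2 : ℝ) (4 ^ j)
      rw [← this]
      push_cast
      rfl
    have h5 : l * l ≤ (M * 2 ^ j) * (M * 2 ^ j) := mul_le_mul hl1 hl1 hl0 (by positivity)
    have h6 : (4 : ℝ) ^ j = 2 ^ j * 2 ^ j := by rw [← mul_pow]; norm_num
    have h7 : ((M : ℝ) ^ 2 * r) ≤ D := by exact_mod_cast hD
    have h8 : l * (l / D) * r ≤ (4 : ℝ) ^ j := by
      rw [show l * (l / D) * r = (l * l * r) / D by ring, div_le_iff₀ hD']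
      have h9 : (0 : ℝ) ≤ r := Nat.cast_nonneg r
      calc l * l * r ≤ (M * 2 ^ j) * (M * 2 ^ j) * r := mul_le_mul_of_nonneg_right h5 h9
        _ = (4 : ℝ) ^ j * (M ^ 2 * r) := by rw [h6]; ring
        _ ≤ (4 : ℝ) ^ j * D := mul_le_mul_of_nonneg_left h7 (by positivity)
    have h10 : ((N : ℝ) ^ (l / D)) ^ r ≤ (x : ℝ) ^ r := by
      calc ((N : ℝ) ^ (l / D)) ^ r = (2 : ℝ) ^ (l * (l / D) * r) := by
            rw [hN, ← Real.rpow_mul (by norm_num), ← Real.rpow_natCast,
              ← Real.rpow_mul (by norm_num)]
        _ ≤ (2 : ℝ) ^ ((4 : ℝ) ^ j) := Real.rpow_le_rpow_of_exponent_le (by norm_num) h8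
        _ = (2 : ℝ) ^ 4 ^ j := e4.symm
        _ ≤ (x : ℝ) ^ r := by exact_mod_cast hs
    exact le_of_pow_le_pow_left₀ hr (by positivity) h10

/-- **Superpolynomial lower bounds for unambiguous (more generally, nonnegatively weighted) circuits
and branching programs which read each vertex at most `k` times, for hypergraphs with few edges and
few minimal transversals.** -/
theorem result : ∃ C : ℕ, 0 < C ∧ ∀ k : ℕ, 1 ≤ k → ∀ j : ℕ, ∃ (V : Type) (_ : Fintype V)
    (_ : DecidableEq V) (H : Finset (Finset V)) (N : ℕ), N = H.card + (Tr H).ncard ∧
    Fintype.card V ≤ C ^ k * 4 ^ j ∧ N ≤ 2 ^ (C ^ k * 2 ^ j) ∧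
    (∀ (P : SCirc V (4 ^ j)) (o : Fin P.size) (a : ℝ), (∀ v, P.cnt v o ≤ k) → 0 < a →
      (∀ S, P.val S o = a * ind (IsTransversal H S)) ∨
        (∀ S, P.val S o = a * ind (¬ IsTransversal H S)) →
      2 ^ 4 ^ j ≤ (3 * P.size) ^ (16 * k * (k + 1)) ∧
      (N : ℝ) ^ (Real.logb 2 N / (C : ℝ) ^ k) ≤ 3 * P.size) ∧
    ∀ (P : WProg V) (o : Fin P.size) (a : ℝ) (s : ℕ), WReadTimes P k o → 0 < a →
      s = P.size + Nat.card (Arc P) →
      (∀ S, P.val S o = a * ind (IsTransversal H S)) ∨
        (∀ S, P.val S o = a * ind (¬ IsTransversal H S)) →
      2 ^ 4 ^ j ≤ (s + 1) ^ (4 * k * (k + 1)) ∧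
      (N : ℝ) ^ (Real.logb 2 N / (C : ℝ) ^ k) ≤ s + 1 := by
  refine ⟨2 ^ 65, by positivity, fun k hk j => ?_⟩
  obtain ⟨V, i1, i2, H, h1, h2, h3, h3'⟩ := exists_hyper k hk j
  have hk2 : k + 1 ≤ 2 ^ k := Nat.lt_two_pow_self
  have h16 : (2 * 2 ^ (8 * k + 18)) ^ 2 * (16 * k * (k + 1)) ≤ (2 ^ 65) ^ k := by
    calc (2 * 2 ^ (8 * k + 18)) ^ 2 * (16 * k * (k + 1))
        ≤ (2 * 2 ^ (8 * k + 18)) ^ 2 * (16 * 2 ^ k * 2 ^ k) :=
          Nat.mul_le_mul_left _ (Nat.mul_le_mul (Nat.mul_le_mul_left _ (by omega)) hk2)
      _ = 2 ^ (18 * k + 42) := by ring
      _ ≤ (2 ^ 65) ^ k := by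
          rw [← pow_mul]
          exact Nat.pow_le_pow_right (by norm_num) (by omega)
  have h04 : (2 * 2 ^ (8 * k + 18)) ^ 2 * (4 * k * (k + 1)) ≤ (2 ^ 65) ^ k := by
    refine le_trans (Nat.mul_le_mul_left _ ?_) h16
    exact Nat.mul_le_mul_right _ (Nat.mul_le_mul_right _ (by norm_num))
  refine ⟨V, i1, i2, H, _, rfl, ?_, ?_, fun P o a hkP ha hP => ?_, fun P o a s hkP ha hs hP => ?_⟩
  · refine h1.trans (Nat.mul_le_mul_right _ ?_)
    rw [← pow_mul]
    exact Nat.pow_le_pow_right (by norm_num) (by omega)
  · refine h2.trans (Nat.pow_le_pow_right (by norm_num) (Nat.mul_le_mul_right _ ?_))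
    rw [← pow_mul, ← pow_succ']
    exact Nat.pow_le_pow_right (by norm_num) (by omega)
  · have h4 := h3 P o a hkP ha hP
    refine ⟨h4, ?_⟩
    have h6 := root (2 * 2 ^ (8 * k + 18)) ((2 ^ 65) ^ k) j _ (3 * P.size) (16 * k * (k + 1)) h2 h4
      (by positivity) h16 (by positivity)
    refine le_trans (le_of_eq ?_) (h6.trans (le_of_eq ?_))
    · push_cast
      rfl
    · push_cast
      rfl
  · have h4 := h3' P o a hkP ha hP
    rw [← hs] at h4
    refine ⟨h4, ?_⟩
    have h6 := root (2 * 2 ^ (8 * k + 18)) ((2 ^ 65) ^ k) j _ (s + 1) (4 * k * (k + 1)) h2 h4
      (by positivity) h04 (by positivity)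
    refine le_trans (le_of_eq ?_) (h6.trans (le_of_eq ?_))
    · push_cast
      rfl
    · push_cast
      rfl

end Pool.Agent.Results.MP_bca398_lc.ReadKCircuits
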